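import Pool.Agent.H975R3.MaxN

set_option autoImplicit false

namespace Pool.Agent.Results.MP_cac120_al.SmallHopf

/-- The group `G` belongs to the variety of groups defined by the set of laws `L`. -/
def InVariety (L : Set (FreeGroup ℕ)) (G : Type) [Group G] : Prop :=
  ∀ w ∈ L, ∀ f : FreeGroup ℕ →* G, f w = 1

/-- The variety defined by the set of laws `L` is small: up to isomorphism, it contains at most
countably many finitely generated groups. -/
def Small (L : Set (FreeGroup ℕ)) : Prop :=
  ∃ (T : ℕ → Type) (_ : ∀ n, Group (T n)),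
    ∀ (H : Type) [Group H], Group.FG H → InVariety L H → ∃ n, Nonempty (H ≃* T n)

theorem hopf_of_maxn {G : Type} [Group G]
    (h : ∀ N : ℕ → Subgroup G, (∀ n, (N n).Normal) → Monotone N →
      ∃ k, ∀ m, k ≤ m → N m = N k) (f : G →* G) (hf : Function.Surjective f) :
    Function.Injective f := by
  let p : ℕ → (G →* G) := fun n => Nat.rec (MonoidHom.id G) (fun _ q => f.comp q) n
  have hp : ∀ n x, p (n + 1) x = f (p n x) := fun n x => rfl
  have hs : ∀ n, Function.Surjective (p n) := by
    intro n
    induction n with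
    | zero => exact Function.surjective_id
    | succ n ih =>
      intro y
      obtain ⟨z, hz⟩ := hf y
      obtain ⟨x, hx⟩ := ih z
      exact ⟨x, by rw [hp, hx, hz]⟩
  obtain ⟨k, hk⟩ := h (fun n => (p n).ker) (fun n => MonoidHom.normal_ker (p n))
    (monotone_nat_of_le_succ (fun n x hx => by
      rw [MonoidHom.mem_ker] at hx ⊢
      rw [hp, hx, map_one]))
  rw [injective_iff_map_eq_one]
  intro x hx
  obtain ⟨y, hy⟩ := hs k x
  have h1 : y ∈ (p (k + 1)).ker := by
    rw [MonoidHom.mem_ker, hp, hy, hx]
  have h2 : (p (k + 1)).ker = (p k).ker := hk (k + 1) (Nat.le_succ k)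
  rw [h2, MonoidHom.mem_ker, hy] at h1
  exact h1

/-- In a small variety of groups every finitely generated group is Hopfian. -/
theorem result (L : Set (FreeGroup ℕ)) (hL : Small L) :
    ∀ (G : Type) [Group G], Group.FG G → InVariety L G →
      ∀ f : G →* G, Function.Surjective f → Function.Injective f := by
  intro G _ hfg hG
  have hs : Pool.Agent.Helper730.SM.SmallVar G := by
    obtain ⟨T, iT, hT⟩ := hL
    refine ⟨T, iT, ?_⟩
    intro H _ hH hv
    exact hT H hH (fun w hw => hv w (hG w hw))
  exact hopf_of_maxn (fun N hN hmono =>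
    Pool.Agent.H975R3.maxn_of_nb (Pool.Agent.Helper730.SM.nb_of_small hs) hfg N hN hmono)

end Pool.Agent.Results.MP_cac120_al.SmallHopf
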